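import Pool.Agent.Q48.RD.PMom
import Pool.Agent.TH464.PW.Quad

/-!
# All moments of the number of prime values of quadratic polynomials in short intervals, at integers with restricted digits

Let `f = a X ^ 2 + b X + c` be admissible: `a > 0`, `gcd (a, b, c) = 1`, the discriminant is not a square, `a + b` and `c` are not both
even; let moreover the discriminant be different from `-4` (this excludes the translates of `X ^ 2 + 1`, for which the result is in
`MP_484c84_nt`). We count the `n` in `(x, x + T]` for which `f (n)` is a prime (or an almost prime).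

Let `g ≥ 2` be a base and `K` a large number of digits. For every `i < K` let `A i` be an arbitrary set of digits, such that the number
`|A 0| ⋯ |A (K - 1)|` of the integers `t < g ^ K` whose `i`-th digit belongs to `A i` for all `i < K` is at least `exp (- δ K) g ^ K`.
Let `|b| + |c| < N ≤ g ^ (E K)` be arbitrary. We consider the numbers `x = N + t` with these `t`: they form a set with only
`y ^ (1 - δ')` elements in an interval of length `y = g ^ K`, which may be an arbitrarily small power of `x`.

Let `k ≥ 1` and `T ≤ g ^ (E K)`. The conjecture of Hardy and Littlewood (Bateman and Horn) for the `k` polynomials `f (x + h_i)`,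
averaged over the shifts `h_1, …, h_k ≤ T`, predicts that the mean value of the `k`-th power of the number of the `n` in `(x, x + T]`
with `f (n)` prime has the order of magnitude of `(T / K) ^ k` for `T ≥ K` and of `T / K` for `T ≤ K`. We prove

(1) the upper bound of this order, for `x` in all these sets;

(2) the exact order of magnitude for the numbers `n` in `(x, x + T]` for which `f (n)` is an almost prime;

(3) that a positive proportion (for `T ≤ K`: the expected proportion `T / K`) of the intervals `(x, x + T]` contains the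
expected number of such `n`.
-/

set_option autoImplicit false

namespace Pool.Agent.Results.MP_a1177c_nt.MomentsInShortIntervals

open Filter Finset
open Pool.Agent.Q315.RD Pool.Agent.Q48.RD
open Pool.Agent.TH464.PW (quad quad_irr quad_deg quad_lead quad_eval quad_adm)

/-- The triple `(a, b, c)` is admissible. -/
structure Admissible (a b c : ℤ) : Prop where
  pos : 0 < a
  gcd : ∀ p : ℕ, p.Prime → ¬ ((p : ℤ) ∣ a ∧ (p : ℤ) ∣ b ∧ (p : ℤ) ∣ c)
  disc : ¬ IsSquare (b ^ 2 - 4 * a * c)
  parity : ¬ (Even (a + b) ∧ Even c)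

/-- The number of the `n` with `x < n ≤ x + T` for which `|a n ^ 2 + b n + c|` is a prime. -/
def primesIn (a b c : ℤ) (x T : ℕ) : ℕ := ((Ioc x (x + T)).filter fun n : ℕ => (a * (n : ℤ) ^ 2 + b * n + c).natAbs.Prime).card

open Classical in
/-- The number of the `n` with `x < n ≤ x + T` for which `a n ^ 2 + b n + c` has at most `r` prime factors, all larger than
`y ^ (1 / r)`. -/
noncomputable def almostPrimesIn (y r : ℕ) (a b c : ℤ) (x T : ℕ) : ℕ :=
  ((Ioc x (x + T)).filter fun n : ℕ => AlmostPrime y r (a * (n : ℤ) ^ 2 + b * n + c).natAbs).card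

open Classical in
/-- The integers `t < g ^ K` whose `i`-th digit belongs to `A i` for all `i < K`. -/
noncomputable def digitSet (g K : ℕ) (A : ℕ → Finset ℕ) : Finset ℕ := (range (g ^ K)).filter (HasDigits g K A)

/-- The predicted order of magnitude of the mean value of the `k`-th power: `T / K` for `T ≤ K` and `(T / K) ^ k` for `T ≥ K`. -/
noncomputable def order (k T K : ℕ) : ℝ := min 1 ((T : ℝ) / K) * max 1 ((T : ℝ) / K) ^ k

/-- **All moments of the number of prime values of a quadratic polynomial in short intervals at integers with restricted digits.** -/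
theorem result (a b c : ℤ) (h : Admissible a b c) (_hD : b ^ 2 - 4 * a * c ≠ -4) (k : ℕ) (hk : 1 ≤ k) (E : ℕ) :
    ∃ δ : ℝ, 0 < δ ∧ ∃ r₀ : ℕ, 2 ≤ r₀ ∧ ∀ r : ℕ, r₀ ≤ r → ∀ g : ℕ, 2 ≤ g → ∃ κ C : ℝ, 0 < κ ∧ 0 < C ∧
      ∀ᶠ K : ℕ in atTop, ∀ N T : ℕ, b.natAbs + c.natAbs + 1 ≤ N → N ≤ g ^ (E * K) → 1 ≤ T → T ≤ g ^ (E * K) →
        ∀ A : ℕ → Finset ℕ, (∀ i < K, A i ⊆ range g) → (g : ℝ) ^ K ≤ Real.exp (δ * K) * choices K A →
        -- the primes
        ∑ t ∈ digitSet g K A, (primesIn a b c (N + t) T : ℝ) ^ k ≤ C * order k T K * choices K A ∧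
        -- the almost primes
        ∑ t ∈ digitSet g K A, (almostPrimesIn (g ^ K) r a b c (N + t) T : ℝ) ^ k ≤ C * order k T K * choices K A ∧
        (g ≤ T →
          κ * order k T K * choices K A ≤ ∑ t ∈ digitSet g K A, (almostPrimesIn (g ^ K) r a b c (N + t) T : ℝ) ^ k ∧
          κ * min 1 ((T : ℝ) / K) * choices K A ≤
            (((digitSet g K A).filter fun t => κ * max 1 ((T : ℝ) / K) ≤ almostPrimesIn (g ^ K) r a b c (N + t) T).card : ℝ)) := by
  classical
  have hlarge : ∀ n : ℕ, b.natAbs + c.natAbs + 1 ≤ n → (n : ℤ) ≤ a * (n : ℤ) ^ 2 + b * n + c := by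
    intro n hn
    have h1 : |b| + |c| + 1 ≤ (n : ℤ) := by
      rw [← Int.natCast_natAbs, ← Int.natCast_natAbs]
      exact_mod_cast hn
    have h2 := neg_abs_le b
    have h3 := neg_abs_le c
    have h4 : (1 : ℤ) ≤ a := h.pos
    have h5 : (0 : ℤ) ≤ n := Int.natCast_nonneg n
    have h6 : (0 : ℤ) ≤ |c| := abs_nonneg c
    have h8 : (0 : ℤ) ≤ |b| := abs_nonneg b
    have h7 : (n : ℤ) ^ 2 ≤ a * (n : ℤ) ^ 2 := by nlinarith [sq_nonneg (n : ℤ)]
    nlinarith
  obtain ⟨δ, hδ, r0, hr0, H⟩ := polyMoments (l := 1) (fun _ => quad a b c)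
    { irr := fun _ => quad_irr a b c h.pos.ne' h.gcd h.disc
      deg := fun _ => by rw [quad_deg a b c h.pos.ne']; norm_num
      lead := fun _ => by rw [quad_lead a b c h.pos.ne']; exact h.pos
      inj := fun i j _ => Subsingleton.elim i j
      adm := fun p hp => by
        obtain ⟨m, hm⟩ := quad_adm a b c h.gcd h.parity p hp
        exact ⟨m, fun _ => hm⟩ }
    (fun i j hij => absurd (Subsingleton.elim i j) hij)
    (fun _ n => (a * (n : ℤ) ^ 2 + b * n + c).natAbs) (b.natAbs + c.natAbs + 1)
    (fun _ n hn => by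
      have := hlarge n hn
      rw [quad_eval, Int.natCast_natAbs, abs_of_nonneg (by omega)])
    (fun _ n hn => by
      have := hlarge n hn
      omega) k hk E
  refine ⟨δ, hδ, r0, hr0, fun r hr g hg => ?_⟩
  obtain ⟨κ, C, hκ, hC, H⟩ := H r hr g hg
  refine ⟨κ, C, hκ, hC, ?_⟩
  filter_upwards [H] with K HK
  intro N T hN0 hN hT1 hT A hA1 hA2
  obtain ⟨h1, h2, h3⟩ := HK N T hN0 hN hT1 hT A ⟨hA1, hA2⟩
  rw [pow_one] at h1 h2 h3
  have e1 : ∀ x, primesIn a b c x T = numIn (fun n => ∀ _ : Fin 1, (a * (n : ℤ) ^ 2 + b * n + c).natAbs.Prime) x T := by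
    intro x
    have e : primesIn a b c x T = numIn (fun n : ℕ => (a * (n : ℤ) ^ 2 + b * n + c).natAbs.Prime) x T := by
      unfold primesIn numIn
      congr!
    rw [e]
    exact le_antisymm (numIn_mono fun n _ h _ => h) (numIn_mono fun n _ h => h 0)
  have e2 : ∀ x, almostPrimesIn (g ^ K) r a b c x T = numIn (fun n => ∀ _ : Fin 1, AlmostPrime (g ^ K) r (a * (n : ℤ) ^ 2 + b * n + c).natAbs) x T := by
    intro x
    have e : almostPrimesIn (g ^ K) r a b c x T = numIn (fun n : ℕ => AlmostPrime (g ^ K) r (a * (n : ℤ) ^ 2 + b * n + c).natAbs) x T := rfl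
    rw [e]
    exact le_antisymm (numIn_mono fun n _ h _ => h) (numIn_mono fun n _ h => h 0)
  simp only [e1, e2]
  refine ⟨h1, h2, fun hgT => ⟨(h3 hgT).1, (h3 hgT).2.trans (le_of_eq ?_)⟩⟩
  unfold count digitSet
  rw [filter_filter]

end Pool.Agent.Results.MP_a1177c_nt.MomentsInShortIntervals
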