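import Pool.Agent.Q145.Shift

/-!
# Prime values `a m² + b m + c` in an arbitrary dense set of primes, `m` in short progressions inside an arbitrary dense set

Let `a ≥ 1` and `b` be integers, `k ≥ 2`, `δ > 0` and `0 < ε ≤ 1`. There is `B` such that for all large `Y`, all `N` with
`(log Y)^B ≤ N ≤ Y^(1/8)`, EVERY set `T` of at least `δ N` integers in `[1, N]` and EVERY set `P` of at least
`δ Y / log Y` primes up to `Y`, a positive proportion of all integers `1 ≤ c ≤ Y` is such that `(a, b, c)` is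
admissible and `T` contains a `k`-term arithmetic progression, of difference at most `N^ε (log Y)^B`, for all terms `m` of
which `a m² + b m + c` is a prime of the set `P`.
-/

set_option autoImplicit false

namespace Pool.Agent.Results.MP_a1177c_nt.PolylogProgressions

open Finset Polynomial

/-- the conditions of Hardy and Littlewood: `a > 0`, `a, b, c` have no common divisor other than `1` and `-1`, the
discriminant is not a square, `a + b` and `c` are not both even -/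
def Admissible (a b c : ℤ) : Prop :=
  0 < a ∧ (∀ d : ℤ, d ∣ a → d ∣ b → d ∣ c → d = 1 ∨ d = -1) ∧ ¬ IsSquare (b ^ 2 - 4 * a * c) ∧
    ¬ (Even (a + b) ∧ Even c)

/-- `T` contains the `k` terms of an arithmetic progression with difference between `1` and `D`, and
`a m² + b m + c` belongs to `P` for each of these terms `m` -/
def Good (T P : Finset ℕ) (k : ℕ) (D : ℝ) (a b c : ℤ) : Prop :=
  ∃ n r : ℕ, 1 ≤ r ∧ (r : ℝ) ≤ D ∧ ∀ j < k, n + j * r ∈ T ∧
    ∃ p ∈ P, (p : ℤ) = a * ((n + j * r : ℕ) : ℤ) ^ 2 + b * ((n + j * r : ℕ) : ℤ) + c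

open Classical in
/-- **A positive proportion of all constant terms `c`.** -/
theorem result (a b : ℤ) (ha : 0 < a) (k : ℕ) (hk : 2 ≤ k) (δ ε : ℝ) (hδ : 0 < δ) (hε : 0 < ε) (hε1 : ε ≤ 1) :
    ∃ B : ℕ, ∃ κ : ℝ, 0 < κ ∧ ∃ Y₀ : ℕ, ∀ Y N : ℕ, Y₀ ≤ Y → Real.log Y ^ B ≤ N → N ^ 8 ≤ Y →
      ∀ T ⊆ Icc 1 N, δ * N ≤ T.card →
      ∀ P ⊆ Icc 1 Y, (∀ p ∈ P, p.Prime) → δ * (Y / Real.log Y) ≤ P.card →
        κ * Y ≤ ((Icc 1 Y).filter (fun c : ℕ => Admissible a b c ∧
          Good T P k ((N : ℝ) ^ ε * Real.log Y ^ B) a b c)).card := by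
  have hd : (C a * X ^ 2 + C b * X : ℤ[X]).natDegree = 2 := by
    have : (C a * X ^ 2 + C b * X : ℤ[X]) = C a * X ^ 2 + C b * X + C 0 := by simp
    rw [this]
    exact natDegree_quadratic ha.ne'
  obtain ⟨B, κ, hκ, X₀, h⟩ := Pool.Agent.Q145.Shift.big (C a * X ^ 2 + C b * X : ℤ[X]) (by rw [hd]; norm_num)
    (a.natAbs + b.natAbs ^ 2 + 2) k hk δ ε hδ hε hε1
  refine ⟨B, κ, hκ, X₀, fun X N hX hN hNX T hT hTc P hP hPp hPc => ?_⟩
  obtain ⟨G, hG, hGc, hGb⟩ := h X N hX hN (by rw [hd]; exact hNX) T hT hTc P hP hPp hPc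
  refine hGc.trans ?_
  have hsub : G ⊆ (Icc 1 X).filter (fun c : ℕ => Admissible a b c ∧
      Good T P k ((N : ℝ) ^ ε * Real.log X ^ B) a b c) := by
    intro c hc
    rw [mem_filter]
    obtain ⟨hc2, n, r, h2, h3, h4⟩ := hGb c hc
    have h7 : ∀ j < k, n + j * r ∈ T ∧ ∃ p ∈ P, a.natAbs + b.natAbs ^ 2 + 2 < p ∧
        (p : ℤ) = a * ((n + j * r : ℕ) : ℤ) ^ 2 + b * ((n + j * r : ℕ) : ℤ) + c := by
      intro j hj
      obtain ⟨h5, p, hp, hp2, hpe⟩ := h4 j hj
      refine ⟨h5, p, hp, hp2, ?_⟩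
      rw [hpe]
      simp
    refine ⟨hG hc, ⟨ha, ?_, ?_, ?_⟩, n, r, h2, h3, fun j hj => ?_⟩
    · intro d hda hdb hdc
      obtain ⟨h8, p, hp, hp2, hpe⟩ := h7 0 (by omega)
      have hdp : d ∣ (p : ℤ) := by
        rw [hpe]
        exact dvd_add (dvd_add (hda.mul_right _) (hdb.mul_right _)) hdc
      have h9 : d.natAbs ∣ p := by
        have := Int.natAbs_dvd_natAbs.2 hdp
        rwa [Int.natAbs_natCast] at this
      rcases (Nat.dvd_prime (hPp p hp)).1 h9 with h10 | h10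
      · omega
      · exfalso
        have h11 : d.natAbs ≤ a.natAbs := Nat.le_of_dvd (by omega) (Int.natAbs_dvd_natAbs.2 hda)
        omega
    · intro hsq
      have h9 : 0 ≤ b ^ 2 - 4 * a * c := hsq.nonneg
      have h10 : ((a.natAbs + b.natAbs ^ 2 + 2 : ℕ) : ℤ) < (c : ℤ) := by exact_mod_cast hc2
      have h11 : ((b.natAbs ^ 2 : ℕ) : ℤ) = b ^ 2 := by push_cast; exact sq_abs b
      have h12 : b ^ 2 < (c : ℤ) := by
        rw [← h11]
        have : ((b.natAbs ^ 2 : ℕ) : ℤ) ≤ ((a.natAbs + b.natAbs ^ 2 + 2 : ℕ) : ℤ) := by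
          exact_mod_cast (by omega : b.natAbs ^ 2 ≤ a.natAbs + b.natAbs ^ 2 + 2)
        linarith
      have h13 : (0 : ℤ) ≤ b ^ 2 := sq_nonneg b
      have h14 : (c : ℤ) ≤ a * c := by nlinarith
      nlinarith
    · rintro ⟨hab, hce⟩
      obtain ⟨h8, p, hp, hp2, hpe⟩ := h7 0 (by omega)
      have hodd : ¬ Even (p : ℤ) := by
        rw [Int.even_coe_nat, Nat.not_even_iff_odd]
        exact (hPp p hp).odd_of_ne_two (by omega)
      apply hodd
      rw [hpe]
      apply Even.add _ hce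
      generalize ((n + 0 * r : ℕ) : ℤ) = m
      have e : a * m ^ 2 + b * m = a * (m * (m - 1)) + (a + b) * m := by ring
      rw [e]
      apply Even.add
      · apply Even.mul_left
        have := Int.even_mul_pred_self m
        exact this
      · exact hab.mul_right _
    · obtain ⟨h5, p, hp, _, hpe⟩ := h7 j hj
      exact ⟨h5, p, hp, hpe⟩
  exact_mod_cast card_le_card hsub

end Pool.Agent.Results.MP_a1177c_nt.PolylogProgressions
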