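import Pool.Agent.Y816.PD.UniL

/-!
# Almost prime values of ALL admissible quadratic polynomials, uniformly in the polynomial, at integers with restricted digits

Let `g ≥ 2` be a base and `K` a large number of digits. For every `i < K` let `A i` be an arbitrary non-empty set of digits. Nothing
is assumed about these sets except that they are not too small on average: the number `|A 0| ⋯ |A (K - 1)|` of the integers
`n < g ^ K` whose `i`-th digit belongs to `A i` for all `i < K` is at least `exp (- c K) g ^ K`, where `c > 0` does not depend on the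
base. (For example, a digit is missing everywhere and the base is large; or the digits at an arbitrary set of at most `c' K` places
are prescribed.)

1. Let `f(n) = α n ^ 2 + β n + γ` be ANY admissible quadratic polynomial whose coefficients are at most `g ^ (E K)`, an arbitrary
power of the size of `n`. The numbers `n < g ^ K` with digits in the sets `A i` for which `f(n)` has at most `r` prime factors, all
greater than `g ^ (K / r)`, are counted up to a constant factor: their number is at least `κ V |A 0| ⋯ |A (K - 1)|`, `V` being the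
product over the primes `p ≤ g ^ K` of `1 - ω(p) / p`, where `ω(p)` is the number of the solutions of `f(n) ≡ 0` modulo `p` (so
`ω(p) = 1 + (D / p)` for odd `p` not dividing `α`; this is the expected order, with all local densities), unless there is an obvious
obstruction (no digit `d` in `A 0` such that `f(d)` is prime to `g`). The number of the `n` with these digits for which `f(n)` has no
prime factor `≤ n ^ (1 / r)` (for instance `|f(n)|` is a prime greater than `n ^ (1 / r)`) is at most `C V |A 0| ⋯ |A (K - 1)|`. The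
constants are independent of the polynomial and of the sets `A i`.
2. For a fixed admissible polynomial both bounds hold with `1 / K` in place of `V`, the order of magnitude predicted by Hardy and
Littlewood for the prime values.

Proof. The theorems on almost prime values of polynomials at integers with restricted digits of the starting library
(`Pool.Agent.Y816.PD.uni_fun`, uniform in the polynomial, and `Pool.Agent.Y816.PD.digits_quad`).
-/

set_option autoImplicit false

namespace Pool.Agent.Results.MP_a1177c_nt.RestrictedDigits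

open Filter Finset

/-- The `i`-th digit of `n` in base `g` (counted from the right, beginning with `0`) belongs to `A i` for all `i < K`. -/
def HasDigits (g K : ℕ) (A : ℕ → Finset ℕ) (n : ℕ) : Prop := ∀ i < K, n / g ^ i % g ∈ A i

/-- The number of the choices of `K` digits in the sets `A i`. -/
def choices (K : ℕ) (A : ℕ → Finset ℕ) : ℕ := ∏ i ∈ range K, (A i).card

/-- The value of the polynomial `α X ^ 2 + β X + γ` at `n`. -/
def value (α β γ : ℤ) (n : ℕ) : ℤ := α * (n : ℤ) ^ 2 + β * n + γ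

/-- Admissible triples, as in the question. -/
structure Admissible (α β γ : ℤ) : Prop where
  pos : 0 < α
  coprime : ∀ p : ℕ, p.Prime → ¬ ((p : ℤ) ∣ α ∧ (p : ℤ) ∣ β ∧ (p : ℤ) ∣ γ)
  nonsquare : ¬ IsSquare (β ^ 2 - 4 * α * γ)
  parity : ¬ (Even (α + β) ∧ Even γ)

/-- No prime factor `p` of `z` satisfies `p ^ r ≤ y`. -/
def Rough (y r : ℕ) (z : ℤ) : Prop := ∀ p : ℕ, p.Prime → (p : ℤ) ∣ z → y < p ^ r

/-- `z` has at most `r` prime factors (counted with multiplicity), and all of them are larger than `y ^ (1 / r)`. -/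
def AlmostPrime (y r : ℕ) (z : ℤ) : Prop := Rough y r z ∧ z.natAbs.primeFactorsList.length ≤ r

open Classical in
/-- The number of the solutions of `α n ^ 2 + β n + γ ≡ 0` modulo `p`. -/
noncomputable def omega (α β γ : ℤ) (p : ℕ) : ℕ := ((range p).filter fun n : ℕ => (p : ℤ) ∣ value α β γ n).card

/-- The product of `1 - ω(p) / p` over the primes `p ≤ y`. -/
noncomputable def density (α β γ : ℤ) (y : ℕ) : ℝ :=
  ∏ p ∈ (Icc 1 y).filter Nat.Prime, (1 - (omega α β γ p : ℝ) / p)

open Classical in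
/-- The number of the `n < g ^ K` with the digits `A i` which have the property `P`. -/
noncomputable def count (g K : ℕ) (A : ℕ → Finset ℕ) (P : ℕ → Prop) : ℕ :=
  ((range (g ^ K)).filter fun n => HasDigits g K A n ∧ P n).card

lemma ND_le_count {g K : ℕ} {A : ℕ → Finset ℕ} {S : Set ℕ} {P : ℕ → Prop} (h : ∀ n < g ^ K, n ∈ S → P n) :
    Pool.Agent.Y816.PD.ND g K A S ≤ count g K A P := by
  classical
  unfold Pool.Agent.Y816.PD.ND count
  apply card_le_card
  intro n hn
  have h1 := mem_filter.1 hn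
  exact mem_filter.2 ⟨h1.1, h1.2.1, h n (mem_range.1 h1.1) h1.2.2⟩

lemma count_le_ND {g K : ℕ} {A : ℕ → Finset ℕ} {S : Set ℕ} {P : ℕ → Prop} (h : ∀ n < g ^ K, P n → n ∈ S) :
    count g K A P ≤ Pool.Agent.Y816.PD.ND g K A S := by
  classical
  unfold Pool.Agent.Y816.PD.ND count
  apply card_le_card
  intro n hn
  have h1 := mem_filter.1 hn
  exact mem_filter.2 ⟨h1.1, h1.2.1, h n (mem_range.1 h1.1) h1.2.2⟩

open Pool.Agent.Y816.PD in
lemma choices_eq (K : ℕ) (A : ℕ → Finset ℕ) : (choices K A : ℝ) = NA K A := by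
  unfold choices NA
  push_cast
  rfl

/-- Admissible polynomials have no fixed prime divisor. -/
lemma no_fixed {α β γ : ℤ} (h : Admissible α β γ) (p : ℕ) (hp : p.Prime) :
    ∃ n : ℕ, ¬ (p : ℤ) ∣ value α β γ n := by
  by_contra hcon
  push Not at hcon
  have hpz := Nat.prime_iff_prime_int.1 hp
  have h0 : (p : ℤ) ∣ γ := by
    have := hcon 0
    simpa [value] using this
  have h1 : (p : ℤ) ∣ α + β := by
    have h2 := dvd_sub (hcon 1) h0
    have h3 : value α β γ 1 - γ = α + β := by
      unfold value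
      push_cast
      ring
    rwa [h3] at h2
  have h2 : (p : ℤ) ∣ 2 * α := by
    have h3 := dvd_sub (dvd_sub (hcon 2) h0) (h1.mul_left 2)
    have h4 : value α β γ 2 - γ - 2 * (α + β) = 2 * α := by
      unfold value
      push_cast
      ring
    rwa [h4] at h3
  rcases hpz.dvd_or_dvd h2 with h3 | h3
  · have hp2 : p = 2 := (Nat.prime_dvd_prime_iff_eq hp Nat.prime_two).1 (by exact_mod_cast h3)
    subst hp2
    exact h.parity ⟨even_iff_two_dvd.2 (by exact_mod_cast h1), even_iff_two_dvd.2 (by exact_mod_cast h0)⟩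
  · refine h.coprime p hp ⟨h3, ?_, h0⟩
    have := dvd_sub h1 h3
    rwa [add_sub_cancel_left] at this

lemma rpow_lt_iff {m p r : ℕ} (hr : r ≠ 0) : (m : ℝ) ^ (1 / (r : ℝ)) < p ↔ m < p ^ r := by
  have h1 : (((m : ℝ) ^ (1 / (r : ℝ))) ^ r) = m := by
    rw [one_div, Real.rpow_inv_natCast_pow (Nat.cast_nonneg m) hr]
  rw [← pow_lt_pow_iff_left₀ (Real.rpow_nonneg (Nat.cast_nonneg m) _) (Nat.cast_nonneg p) hr, h1]
  exact_mod_cast Iff.rfl

/-- The uniform theorem. -/
theorem uniform (E : ℕ) :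
    ∃ c : ℝ, 0 < c ∧ ∃ r₀ : ℕ, 2 ≤ r₀ ∧ ∀ r : ℕ, r₀ ≤ r → ∀ g : ℕ, 2 ≤ g → ∃ κ C : ℝ, 0 < κ ∧ 0 < C ∧
      ∀ᶠ K : ℕ in atTop, ∀ α β γ : ℤ, Admissible α β γ → |α| ≤ (g : ℤ) ^ (E * K) →
        |β| ≤ (g : ℤ) ^ (E * K) → |γ| ≤ (g : ℤ) ^ (E * K) →
        ∀ A : ℕ → Finset ℕ, (∀ i < K, A i ⊆ range g) → (g : ℝ) ^ K ≤ Real.exp (c * K) * choices K A →
          ((∃ d ∈ A 0, (value α β γ d).natAbs.Coprime g) →
            κ * density α β γ (g ^ K) * choices K A ≤
              count g K A fun n => AlmostPrime (g ^ K) r (value α β γ n)) ∧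
          (count g K A (fun n => Rough n r (value α β γ n)) : ℝ) ≤
            C * density α β γ (g ^ K) * choices K A := by
  classical
  obtain ⟨c, hc, r0, hr0, h⟩ := Pool.Agent.Y816.PD.uni_fun 2 (E + 4) (by norm_num)
  refine ⟨c, hc, r0, hr0, fun r hr g hg => ?_⟩
  obtain ⟨κ, C, hκ, hC, h1⟩ := h r hr g hg
  refine ⟨κ, C, hκ, hC, ?_⟩
  filter_upwards [h1, eventually_ge_atTop 1] with K hK hK2
  intro α β γ hadm hα hβ hγ A hA hprod
  have hval : (fun n : ℕ => value α β γ n) = value α β γ := rfl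
  obtain ⟨hlow, hup⟩ := hK (value α β γ) ⟨Polynomial.C α * Polynomial.X ^ 2 + Polynomial.C β * Polynomial.X +
      Polynomial.C γ, Polynomial.natDegree_quadratic_le, fun n => by simp [value]⟩
    (no_fixed hadm)
    (fun n hn => by
      have hn' : (n : ℤ) ≤ (g : ℤ) ^ K := by exact_mod_cast hn.le
      have hn0 : (0 : ℤ) ≤ n := Nat.cast_nonneg n
      have hg0 : (0 : ℤ) ≤ (g : ℤ) ^ (E * K) := by positivity
      have hgK : (0 : ℤ) ≤ (g : ℤ) ^ K := by positivity
      have h2K : (2 : ℤ) ≤ (g : ℤ) ^ K := by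
        have e1 : 2 ^ 1 ≤ g ^ K := (Nat.pow_le_pow_left hg 1).trans (Nat.pow_le_pow_right (by omega) hK2)
        exact_mod_cast e1
      have e2 : |value α β γ n| ≤ |α| * (n : ℤ) ^ 2 + |β| * n + |γ| := by
        unfold value
        refine (abs_add_le _ _).trans (add_le_add_left ((abs_add_le _ _).trans ?_) _)
        rw [abs_mul, abs_mul, abs_of_nonneg hn0, abs_of_nonneg (pow_nonneg hn0 2)]
      have e3 : |α| * (n : ℤ) ^ 2 + |β| * n + |γ| ≤ (g : ℤ) ^ (E * K) * ((g : ℤ) ^ K) ^ 4 := by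
        have f1 : |α| * (n : ℤ) ^ 2 ≤ (g : ℤ) ^ (E * K) * ((g : ℤ) ^ K) ^ 2 :=
          mul_le_mul hα (pow_le_pow_left₀ hn0 hn' 2) (by positivity) hg0
        have f2 : |β| * n ≤ (g : ℤ) ^ (E * K) * (g : ℤ) ^ K := mul_le_mul hβ hn' hn0 hg0
        have f3 : ((g : ℤ) ^ K) ^ 2 + (g : ℤ) ^ K + 1 ≤ ((g : ℤ) ^ K) ^ 4 := by nlinarith [sq_nonneg ((g : ℤ) ^ K - 2), mul_nonneg hgK hgK]
        have f4 := mul_le_mul_of_nonneg_left f3 hg0
        linarith
      have e4 : |value α β γ n| ≤ (g : ℤ) ^ ((E + 4) * K) := by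
        refine (e2.trans e3).trans (le_of_eq ?_)
        rw [← pow_mul, ← pow_add]
        congr 1
        ring
      have e5 : ((value α β γ n).natAbs : ℤ) ≤ ((g ^ ((E + 4) * K) : ℕ) : ℤ) := by
        rw [Int.natCast_natAbs]
        push_cast
        exact e4
      exact_mod_cast e5)
    A hA (by rw [← choices_eq]; exact hprod)
  have hW : Pool.Agent.Y816.PD.WG (value α β γ) (g ^ K) = density α β γ (g ^ K) := rfl
  rw [hW, ← choices_eq] at hlow hup
  constructor
  · rintro ⟨d, hd, hd1⟩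
    have h3 := hlow ⟨d, hd, hd1⟩
    rw [mul_right_comm]
    refine h3.trans (Nat.cast_le.2 ?_)
    exact ND_le_count fun n hn1 hn => hn
  · rw [mul_right_comm]
    refine le_trans (Nat.cast_le.2 ?_) hup
    exact count_le_ND fun n hn1 hn => hn

/-- The theorem for one polynomial. -/
theorem fixed (α β γ : ℤ) (hadm : Admissible α β γ) :
    ∃ c : ℝ, 0 < c ∧ ∃ r₀ : ℕ, 2 ≤ r₀ ∧ ∀ r : ℕ, r₀ ≤ r → ∀ g : ℕ, 2 ≤ g → ∃ κ C : ℝ, 0 < κ ∧ 0 < C ∧
      ∀ᶠ K : ℕ in atTop,
        ∀ A : ℕ → Finset ℕ, (∀ i < K, A i ⊆ range g) → (g : ℝ) ^ K ≤ Real.exp (c * K) * choices K A →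
          ((∃ d ∈ A 0, (value α β γ d).natAbs.Coprime g) →
            κ * choices K A / K ≤ count g K A fun n => AlmostPrime n r (value α β γ n)) ∧
          (count g K A (fun n => Rough n r (value α β γ n)) : ℝ) ≤ C * choices K A / K := by
  classical
  obtain ⟨c, hc, r0, hr0, h⟩ := Pool.Agent.Y816.PD.digits_quad α β γ hadm.pos hadm.coprime hadm.nonsquare
    (no_fixed hadm) (fun r => {n | Rough n r (value α β γ n)}) (fun r => {n | AlmostPrime n r (value α β γ n)})
    (fun r m hr hm p hp hd => (rpow_lt_iff (by omega)).2 (hm p hp hd))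
    (fun r m hr hm hl => ⟨fun p hp hd => (rpow_lt_iff (by omega)).1 (hm p hp hd), hl⟩)
    (fun g d => (value α β γ d).natAbs.Coprime g)
    (fun g d _ hcop p hp hpg hd => by
      have h4 := Nat.dvd_gcd (Int.natCast_dvd.1 hd) hpg
      have h5 : (α * (d : ℤ) ^ 2 + β * d + γ).natAbs.gcd g = 1 := hcop
      rw [h5] at h4
      exact hp.one_lt.ne' (Nat.dvd_one.1 h4))
  refine ⟨c, hc, r0, hr0, fun r hr g hg => ?_⟩
  obtain ⟨κ, C, hκ, hC, h1⟩ := h r hr g hg
  refine ⟨κ, C, hκ, hC, ?_⟩
  filter_upwards [h1] with K hK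
  intro A hA hprod
  obtain ⟨hlow, hup⟩ := hK A hA (by rw [← choices_eq]; exact hprod)
  rw [← choices_eq, pow_one] at hlow hup
  exact ⟨fun hd => (hlow hd).trans (Nat.cast_le.2 (ND_le_count fun n _ hn => hn)),
    le_trans (Nat.cast_le.2 (count_le_ND fun n _ hn => hn)) hup⟩

/-- **Almost prime values of quadratic polynomials at integers with restricted digits**, uniformly in the polynomial and for
one polynomial. -/
theorem result :
    (∀ E : ℕ, ∃ c : ℝ, 0 < c ∧ ∃ r₀ : ℕ, 2 ≤ r₀ ∧ ∀ r : ℕ, r₀ ≤ r → ∀ g : ℕ, 2 ≤ g → ∃ κ C : ℝ, 0 < κ ∧ 0 < C ∧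
      ∀ᶠ K : ℕ in atTop, ∀ α β γ : ℤ, Admissible α β γ → |α| ≤ (g : ℤ) ^ (E * K) →
        |β| ≤ (g : ℤ) ^ (E * K) → |γ| ≤ (g : ℤ) ^ (E * K) →
        ∀ A : ℕ → Finset ℕ, (∀ i < K, A i ⊆ range g) → (g : ℝ) ^ K ≤ Real.exp (c * K) * choices K A →
          ((∃ d ∈ A 0, (value α β γ d).natAbs.Coprime g) →
            κ * density α β γ (g ^ K) * choices K A ≤
              count g K A fun n => AlmostPrime (g ^ K) r (value α β γ n)) ∧
          (count g K A (fun n => Rough n r (value α β γ n)) : ℝ) ≤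
            C * density α β γ (g ^ K) * choices K A) ∧
    ∀ α β γ : ℤ, Admissible α β γ →
      ∃ c : ℝ, 0 < c ∧ ∃ r₀ : ℕ, 2 ≤ r₀ ∧ ∀ r : ℕ, r₀ ≤ r → ∀ g : ℕ, 2 ≤ g → ∃ κ C : ℝ, 0 < κ ∧ 0 < C ∧
        ∀ᶠ K : ℕ in atTop,
          ∀ A : ℕ → Finset ℕ, (∀ i < K, A i ⊆ range g) → (g : ℝ) ^ K ≤ Real.exp (c * K) * choices K A →
            ((∃ d ∈ A 0, (value α β γ d).natAbs.Coprime g) →
              κ * choices K A / K ≤ count g K A fun n => AlmostPrime n r (value α β γ n)) ∧
            (count g K A (fun n => Rough n r (value α β γ n)) : ℝ) ≤ C * choices K A / K :=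
  ⟨uniform, fixed⟩

end Pool.Agent.Results.MP_a1177c_nt.RestrictedDigits
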