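import Pool.Agent.Q26.BH.PoissonU
import Pool.Agent.Y879.GL.QuadU
import Pool.Agent.Y879.GL.HerPoly

/-!
# The laws of the almost prime values of quadratic polynomials, uniformly in the polynomials

All admissible quadratic polynomials `f(m) = a m ^ 2 + b m + c` with coefficients up to `X ^ A` whose sieve density is at
most `B` times the density of the primes. Call `m` good if `f(m)` has no prime factor `≤ X ^ (1/r)`. In all intervals of
length at least `X ^ θ` the numbers of the good integers in windows follow the Poisson law, the gaps between the good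
integers are exponentially distributed, and almost all elements of an ARBITRARY set of good integers are regular points of
this set, all this uniformly in the polynomials and in the intervals.
-/

set_option autoImplicit false

namespace Pool.Agent.Results.MP_a1177c_nt.UniformLaws

open Finset Filter

/-- admissible quadratic polynomials, as in the problem, with coefficients `≤ H` -/
structure Adm (H a b c : ℤ) : Prop where
  pos : 0 < a
  prim : ∀ p : ℕ, p.Prime → ¬ ((p : ℤ) ∣ a ∧ (p : ℤ) ∣ b ∧ (p : ℤ) ∣ c)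
  par : ¬ (Even (a + b) ∧ Even c)
  disc : ¬ IsSquare (b ^ 2 - 4 * a * c)
  ha : |a| ≤ H
  hb : |b| ≤ H
  hc : |c| ≤ H

/-- `a m ^ 2 + b m + c` has no prime factor `p ≤ X ^ (1/r)` -/
def Good (a b c : ℤ) (r X m : ℕ) : Prop :=
  ∀ p : ℕ, p.Prime → (p : ℝ) ≤ (X : ℝ) ^ (1 / (r : ℝ)) → ¬ (p : ℤ) ∣ a * (m : ℤ) ^ 2 + b * m + c

open Classical in
/-- the product over the primes `p ≤ X ^ (1/r)` of `1 - ω(p) / p`, where `ω(p)` is the number of the solutions modulo `p`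
of `a m ^ 2 + b m + c ≡ 0` -/
noncomputable def V (a b c : ℤ) (r X : ℕ) : ℝ :=
  ∏ p ∈ (Icc 1 ⌊(X : ℝ) ^ (1 / (r : ℝ))⌋₊).filter Nat.Prime,
    (1 - (((range p).filter (fun m : ℕ => (p : ℤ) ∣ a * (m : ℤ) ^ 2 + b * m + c)).card : ℝ) / p)

/-- the product over the primes `p ≤ X ^ (1/r)` of `1 - 1 / p` -/
noncomputable def V₁ (r X : ℕ) : ℝ :=
  ∏ p ∈ (Icc 1 ⌊(X : ℝ) ^ (1 / (r : ℝ))⌋₊).filter Nat.Prime, (1 - 1 / (p : ℝ))

open Classical in
/-- the number of the good integers in `(n, n + T]` -/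
noncomputable def count (a b c : ℤ) (r X T n : ℕ) : ℕ :=
  ((Ioc n (n + T)).filter (fun m => Good a b c r X m)).card

/-- the weights of the Poisson law -/
noncomputable def pois (x : ℝ) (j : ℕ) : ℝ := Real.exp (-x) * x ^ j / j.factorial

open Classical in
/-- the number of the elements of `A` in `(u, v]` -/
noncomputable def N (A : Set ℕ) (u v : ℕ) : ℕ := ((Ioc u v).filter (fun m => m ∈ A)).card

/-- All intervals `(m - s, m + t]` with `s, t ≤ Y` of length at least `L / c` contain the right order of elements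
of `A`. -/
def RightOrder (A : Set ℕ) (L c : ℝ) (Y m : ℕ) : Prop :=
  ∀ s t : ℕ, s ≤ Y → t ≤ Y → L ≤ c * (s + t) →
    c * (s + t) / L ≤ N A (m - s) (m + t) ∧ (N A (m - s) (m + t) : ℝ) ≤ (s + t) / (c * L)

/-- Up to `δ`, `A` has a constant density on both sides of `m` up to the distance `2 ^ j`. -/
def ConstantDensity (A : Set ℕ) (L c δ : ℝ) (m j : ℕ) : Prop :=
  ∃ lam : ℝ, c ≤ lam ∧ lam ≤ 1 / c ∧ ∀ s t : ℕ, s ≤ 2 ^ j → t ≤ 2 ^ j →
    |(N A (m - s) (m + t) : ℝ) - lam * (s + t) / L| ≤ δ * 2 ^ j / L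

open Classical in
/-- the number of the scales `L ≤ 2 ^ j ≤ Y` without this property -/
noncomputable def badScales (A : Set ℕ) (L c δ : ℝ) (Y m : ℕ) : ℕ :=
  ((range (Nat.log 2 Y + 1)).filter (fun j => L ≤ (2 : ℝ) ^ j ∧ ¬ ConstantDensity A L c δ m j)).card

/-- The elements of `A` that are not regular points of `A`. -/
def Irregular (A : Set ℕ) (L c δ : ℝ) (B Y : ℕ) : Set ℕ :=
  {m | m ∈ A ∧ ¬ (RightOrder A L c Y m ∧ badScales A L c δ Y m ≤ B)}

lemma N_eq : N = Pool.Agent.TH977.PW.N := by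
  funext A u v
  unfold N Pool.Agent.TH977.PW.N
  rfl

lemma Irregular_eq (A : Set ℕ) (L c δ : ℝ) (B Y : ℕ) :
    Irregular A L c δ B Y = Pool.Agent.Y879.GL.Irr A L c δ B Y := by
  unfold Irregular Pool.Agent.Y879.GL.Irr badScales Pool.Agent.Y879.GL.bS RightOrder Pool.Agent.Y879.GL.RO
    ConstantDensity Pool.Agent.Y879.GL.CD
  rw [N_eq]

open Pool.Agent.TH464.PO (qs) in
lemma Q_iff (a b c : ℤ) (p m : ℕ) : Pool.Agent.W123.RU.Poly.Q (qs a b c) p m ↔
    (p : ℤ) ∣ a * (m : ℤ) ^ 2 + b * m + c := by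
  unfold Pool.Agent.W123.RU.Poly.Q qs
  rw [Fin.exists_fin_one, Pool.Agent.TH464.PW.quad_eval]

open Pool.Agent.TH464.PO (qs) in
lemma good_iff (a b c : ℤ) (r X m : ℕ) :
    Good a b c r X m ↔ Pool.Agent.TH464.PO.Sf (Pool.Agent.W123.RU.Poly.Q (qs a b c))
      ⌊(X : ℝ) ^ (1 / (r : ℝ))⌋₊ m := by
  unfold Good Pool.Agent.TH464.PO.Sf Pool.Agent.H373R2.T7.pz
  constructor
  · intro h p hp
    rw [mem_filter, mem_Icc] at hp
    have h1 : (p : ℝ) ≤ (X : ℝ) ^ (1 / (r : ℝ)) :=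
      (Nat.le_floor_iff (by positivity)).1 hp.1.2
    rw [Q_iff]
    exact h p hp.2 h1
  · intro h p hp h1
    have h2 : p ≤ ⌊(X : ℝ) ^ (1 / (r : ℝ))⌋₊ := Nat.le_floor h1
    rw [← Q_iff]
    exact h p (mem_filter.2 ⟨mem_Icc.2 ⟨hp.one_lt.le, h2⟩, hp⟩)

open Classical in
open Pool.Agent.TH464.PO (qs) in
lemma V_eq (a b c : ℤ) (r X : ℕ) :
    V a b c r X = Pool.Agent.W123.RP.Vq (Pool.Agent.W123.RU.Poly.Q (qs a b c))
      ⌊(X : ℝ) ^ (1 / (r : ℝ))⌋₊ := by
  unfold V Pool.Agent.W123.RP.Vq Pool.Agent.H373R2.T7.pz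
  refine prod_congr rfl (fun p _ => ?_)
  have e : ((range p).filter (fun m : ℕ => (p : ℤ) ∣ a * (m : ℤ) ^ 2 + b * m + c)).card =
      Pool.Agent.H373R2.T7.nuB (Pool.Agent.W123.RU.Poly.Q (qs a b c)) p := by
    unfold Pool.Agent.H373R2.T7.nuB
    congr 1
    ext m
    rw [mem_filter, mem_filter, Q_iff]
  rw [e]

lemma V₁_eq (r X : ℕ) : V₁ r X = Pool.Agent.H373R2.T7.Vz ⌊(X : ℝ) ^ (1 / (r : ℝ))⌋₊ := rfl

open Pool.Agent.TH464.PO (qs) in
lemma us (A X : ℕ) (hX : (1 : ℝ) ≤ X) (U : ℝ) (a b c : ℤ) (h : Adm ((X : ℤ) ^ A) a b c) :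
    Pool.Agent.Y879.GL.US 1 2 ((X : ℝ) ^ ((A : ℝ) + 1)) U (qs a b c) := by
  apply Pool.Agent.Y879.GL.us_single (Pool.Agent.TH464.PW.quad a b c)
    (Pool.Agent.TH464.PW.quad_irr a b c h.pos.ne' h.prim h.disc)
  · rw [Pool.Agent.TH464.PW.quad_deg a b c h.pos.ne']
    norm_num
  · rw [Pool.Agent.TH464.PW.quad_deg a b c h.pos.ne']
  · intro n
    have h4 := Pool.Agent.Y879.GL.quad_coeff a b c n ((X : ℤ) ^ A) h.ha h.hb h.hc
    have h5 : |(((Pool.Agent.TH464.PW.quad a b c).coeff n : ℤ) : ℝ)| ≤ (X : ℝ) ^ A := by exact_mod_cast h4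
    refine h5.trans ?_
    rw [← Real.rpow_natCast]
    exact Real.rpow_le_rpow_of_exponent_le hX (by linarith)
  · intro p hp
    exact Pool.Agent.TH464.PW.quad_adm a b c h.prim h.par p hp

open Classical in
/-- **The laws of the almost prime values of quadratic polynomials, uniformly in the polynomials.** Let `A ≥ 0`,
`θ > 0`, `x₀` real, `l₀ ≥ 0`. There is `r₀` for each `ε > 0` such that for every `r ≥ r₀` and `B > 0` and all large `X`
the following holds for ALL admissible quadratic polynomials with coefficients `≤ X ^ A` and `V ≤ B V₁`, and all intervals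
`(Z, Z + Y]` with `Y ≥ X ^ θ`: (1) the Poisson law for the numbers of the good integers in windows; (2) the gap laws.
(3) For the same polynomials almost all elements of an arbitrary set of good integers are regular points of this set. -/
theorem result (A : ℕ) (θ ε x₀ : ℝ) (hθ : 0 < θ) (hε : 0 < ε) (l₀ : ℕ) :
    ∃ r₀ : ℕ, ∀ r : ℕ, r₀ ≤ r → ∀ B : ℝ, 0 < B →
      (∃ X₀ : ℕ, ∀ X : ℕ, X₀ ≤ X → ∀ a b c : ℤ, Adm ((X : ℤ) ^ A) a b c → V a b c r X ≤ B * V₁ r X →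
        ∀ Z Y : ℕ, (X : ℝ) ^ θ ≤ Y →
        (∀ T : ℕ, T * V a b c r X ≤ x₀ → ∀ S : Finset ℕ,
          |(((Ioc Z (Z + Y)).filter (fun n => count a b c r X T n ∈ S)).card : ℝ) -
            Y * ∑ j ∈ S, pois (T * V a b c r X) j| ≤ ε * Y) ∧
        (∀ l T : ℕ, (l ≤ l₀ ∨ T * V a b c r X ≤ x₀) →
          |(((Ioc Z (Z + Y)).filter (fun n => Good a b c r X n ∧
              ((Ico (n - T) n).filter (fun m => Good a b c r X m)).card < l)).card : ℝ) -
            Y * V a b c r X * ∑ j ∈ range l, pois (T * V a b c r X) j| ≤ ε * (Y * V a b c r X))) ∧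
      ∀ ε₁ : ℝ, 0 < ε₁ → ∃ c₁ : ℝ, 0 < c₁ ∧ ∀ δ : ℝ, 0 < δ → ∃ B₁ X₀ : ℕ, ∀ X : ℕ, X₀ ≤ X →
        ∀ a b c : ℤ, Adm ((X : ℤ) ^ A) a b c → V a b c r X ≤ B * V₁ r X →
        ∀ Z Y : ℕ, (X : ℝ) ^ θ ≤ Y → Y ≤ X → Y ≤ Z → ∀ S : Set ℕ, (∀ m ∈ S, Good a b c r X m) →
          (N (Irregular S (1 / V a b c r X) c₁ δ B₁ Y) Z (Z + Y) : ℝ) ≤ ε₁ * (Y * V a b c r X) := by
  obtain ⟨r1, h1⟩ := Pool.Agent.Q26.BH.poisson_polys 1 2 ((A : ℝ) + 1) 1 θ (by positivity) one_pos hθ x₀ ε hε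
  obtain ⟨r2, h2⟩ := Pool.Agent.Y879.GL.gap_polys 1 2 ((A : ℝ) + 1) 1 θ (by positivity) one_pos hθ l₀ x₀ ε hε
  obtain ⟨r3, hr3, h3⟩ := Pool.Agent.Y879.GL.hered_polys 1 2 0 ((A : ℝ) + 1) 1 θ (by positivity) one_pos hθ
  refine ⟨max (max r1 r2) (max r3 2), fun r hr B hB => ?_⟩
  have hra : r1 ≤ r := ((le_max_left _ _).trans (le_max_left _ _)).trans hr
  have hrb : r2 ≤ r := ((le_max_right _ _).trans (le_max_left _ _)).trans hr
  have hrc : r3 ≤ r := ((le_max_left _ _).trans (le_max_right _ _)).trans hr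
  have hrd : 2 ≤ r := ((le_max_right _ _).trans (le_max_right _ _)).trans hr
  obtain ⟨C, hC, hVz⟩ := Pool.Agent.Y879.GL.Vz_up r hrd
  have hup : ∀ X : ℕ, (0 ≤ Pool.Agent.H373R2.T7.Vz ⌊(X : ℝ) ^ (1 / (r : ℝ))⌋₊ ∧
      Pool.Agent.H373R2.T7.Vz ⌊(X : ℝ) ^ (1 / (r : ℝ))⌋₊ ≤ C / Real.log X) → ∀ a b c : ℤ,
      V a b c r X ≤ B * V₁ r X →
      Pool.Agent.W123.RP.Vq (Pool.Agent.W123.RU.Poly.Q (Pool.Agent.TH464.PO.qs a b c))
        ⌊(X : ℝ) ^ (1 / (r : ℝ))⌋₊ ≤ B * C / Real.log X := by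
    intro X hX a b c hV
    rw [V_eq, V₁_eq] at hV
    refine hV.trans ?_
    calc B * Pool.Agent.H373R2.T7.Vz ⌊(X : ℝ) ^ (1 / (r : ℝ))⌋₊ ≤ B * (C / Real.log X) :=
          mul_le_mul_of_nonneg_left hX.2 hB.le
      _ = B * C / Real.log X := by ring
  constructor
  · obtain ⟨X₀, hX₀⟩ := eventually_atTop.1 (((h1 r hra (B * C)).and (h2 r hrb (B * C))).and
      (hVz.and (eventually_ge_atTop 1)))
    refine ⟨X₀, fun X hX a b c hadm hV Z Y hY => ?_⟩
    obtain ⟨⟨g1, g2⟩, g3, g4⟩ := hX₀ X hX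
    have hus := us A X (by exact_mod_cast g4) ((X : ℝ) ^ (1 : ℝ)) a b c hadm
    have hVV := hup X g3 a b c hV
    have hg : ∀ m, Good a b c r X m ↔ Pool.Agent.TH464.PO.Sf
        (Pool.Agent.W123.RU.Poly.Q (Pool.Agent.TH464.PO.qs a b c)) ⌊(X : ℝ) ^ (1 / (r : ℝ))⌋₊ m :=
      good_iff a b c r X
    constructor
    · intro T hT S
      rw [V_eq] at hT ⊢
      have g5 := g1 _ hus hVV Z Y hY T hT S
      have e1 : ((Ioc Z (Z + Y)).filter (fun n => count a b c r X T n ∈ S)) =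
          ((Ioc Z (Z + Y)).filter (fun n => Pool.Agent.TH464.PO.Wc (Pool.Agent.TH464.PO.Sf
            (Pool.Agent.W123.RU.Poly.Q (Pool.Agent.TH464.PO.qs a b c))
              ⌊(X : ℝ) ^ (1 / (r : ℝ))⌋₊) n T ∈ S)) := by
        apply filter_congr
        intro n _
        unfold count Pool.Agent.TH464.PO.Wc
        rw [filter_congr (fun m _ => hg m)]
      rw [e1]
      exact g5
    · intro l T hT
      rw [V_eq] at hT ⊢
      have g5 := g2 _ hus hVV Z Y hY l T hT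
      have e1 : ((Ioc Z (Z + Y)).filter (fun n => Good a b c r X n ∧
              ((Ico (n - T) n).filter (fun m => Good a b c r X m)).card < l)) =
          ((Ioc Z (Z + Y)).filter (fun n => Pool.Agent.TH464.PO.Sf
              (Pool.Agent.W123.RU.Poly.Q (Pool.Agent.TH464.PO.qs a b c)) ⌊(X : ℝ) ^ (1 / (r : ℝ))⌋₊ n ∧
              ((Ico (n - T) n).filter (Pool.Agent.TH464.PO.Sf
                (Pool.Agent.W123.RU.Poly.Q (Pool.Agent.TH464.PO.qs a b c))
                  ⌊(X : ℝ) ^ (1 / (r : ℝ))⌋₊)).card < l)) := by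
        apply filter_congr
        intro n _
        rw [hg n, filter_congr (fun m _ => hg m)]
      rw [e1]
      exact g5
  · intro ε₁ hε₁
    obtain ⟨cc, hcc, h4⟩ := h3 r hrc (B * C) (by positivity) ε₁ hε₁
    refine ⟨cc, hcc, fun δ hδ => ?_⟩
    obtain ⟨B₁, h5⟩ := h4 δ hδ
    obtain ⟨X₀, hX₀⟩ := eventually_atTop.1 (h5.and (hVz.and (eventually_ge_atTop 1)))
    refine ⟨B₁, X₀, fun X hX a b c hadm hV Z Y hY hYX hYZ S hS => ?_⟩
    obtain ⟨g1, g3, g4⟩ := hX₀ X hX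
    have hus := us A X (by exact_mod_cast g4) 0 a b c hadm
    have hno : Pool.Agent.Y879.GL.NoAs (Pool.Agent.TH464.PO.qs a b c) ∅ ((X : ℝ) ^ (1 : ℝ)) := by
      intro i j t ht _ _
      apply Pool.Agent.Y879.GL.no_self
      · change (Pool.Agent.TH464.PW.quad a b c).natDegree ≠ 0
        rw [Pool.Agent.TH464.PW.quad_deg a b c hadm.pos.ne']
        norm_num
      · exact_mod_cast (by omega : t ≠ 0)
    have g6 := g1 _ hus ∅ (by simp) hno (hup X g3 a b c hV) Z Y hY hYX hYZ S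
      (fun m hm => (good_iff a b c r X m).1 (hS m hm))
    rw [Irregular_eq, N_eq, V_eq]
    exact g6

end Pool.Agent.Results.MP_a1177c_nt.UniformLaws
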